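import Pool.Agent.Lib_helper78.ADV.Code
import Pool.Agent.Lib_helper78.RF.F.VAL

/-!
# Slow enumeration of the families
-/

set_option autoImplicit false

namespace Pool.Agent.ADV

open Pool.Agent.CK Pool.Agent.RF

theorem fm_countable : Countable Fm :=
  Function.Injective.countable (f := Fm.enc) (fun φ ψ h =>
    (enc_inj (a := []) (b := []) (by rw [List.append_nil, List.append_nil]; exact h)).1)

theorem exists_en : ∃ en : ℕ → Fam, Function.Surjective en := by
  have := fm_countable
  have : Nonempty Fam := ⟨(0, 0, falsum)⟩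
  exact exists_surjective_nat Fam

/-- the total size of the first `m` entries of the table at level `N` -/
def tot (S : ℕ → ℕ) (N : ℕ) (m : ℕ) : ℕ :=
  1 + ((List.range m).map (fun j => S j + 8 * Nat.size (N + 1) + 16)).sum

theorem tot_small (S : ℕ → ℕ) (m : ℕ) : ∃ N0, ∀ N, N0 ≤ N → tot S N m ≤ N := by
  have h1 : ∀ N, tot S N m = (1 + ((List.range m).map (fun j => S j + 16)).sum) +
      m * (8 * Nat.size (N + 1)) := by
    intro N
    unfold tot
    have : ∀ l : List ℕ, (l.map (fun j => S j + 8 * Nat.size (N + 1) + 16)).sum =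
        (l.map (fun j => S j + 16)).sum + l.length * (8 * Nat.size (N + 1)) := by
      intro l
      induction l with
      | nil => simp
      | cons a t ih =>
        simp only [List.map_cons, List.sum_cons, List.length_cons, ih]
        ring
    rw [this, List.length_range]
    ring
  set K := 1 + ((List.range m).map (fun j => S j + 16)).sum with hK
  -- size (N+1) grows slowly
  have h2 : ∀ a : ℕ, ∃ N0, ∀ N, N0 ≤ N → a * Nat.size (N + 1) ≤ N := by
    intro a
    refine ⟨2 ^ (2 * a + 4), fun N hN => ?_⟩
    generalize hs : Nat.size (N + 1) = s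
    have h3 : 2 ^ (s - 1) ≤ N + 1 := by
      rw [← Nat.lt_size, hs]
      have : 0 < Nat.size (N + 1) := Nat.size_pos.2 (by omega)
      omega
    have h4 : 2 * a + 4 < s := by
      rw [← hs, Nat.lt_size]; omega
    have h5 : a * s + 1 ≤ 2 ^ (s - 1) := by
      obtain ⟨t, rfl⟩ : ∃ t, s = 2 * a + 4 + t + 1 := ⟨s - (2 * a + 4) - 1, by omega⟩
      have : ∀ t : ℕ, a * (2 * a + 4 + t + 1) + 1 ≤ 2 ^ (2 * a + 4 + t) := by
        intro t
        induction t with
        | zero =>
          have : ∀ b : ℕ, b * (2 * b + 5) + 3 ≤ 2 ^ (2 * b + 4) := by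
            intro b
            induction b with
            | zero => norm_num
            | succ b ih =>
              have : 2 ^ (2 * (b + 1) + 4) = 4 * 2 ^ (2 * b + 4) := by
                have : 2 * (b + 1) + 4 = 2 * b + 4 + 2 := by ring
                rw [this, pow_add]; ring
              rw [this]
              nlinarith
          have := this a
          show a * (2 * a + 5) + 1 ≤ 2 ^ (2 * a + 4)
          exact le_trans (Nat.add_le_add_left (by norm_num) _) this
        | succ t ih =>
          have : 2 ^ (2 * a + 4 + (t + 1)) = 2 * 2 ^ (2 * a + 4 + t) := by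
            rw [← Nat.add_assoc, pow_succ]; ring
          rw [this]
          nlinarith
      simpa using this t
    omega
  obtain ⟨N0, hN0⟩ := h2 (2 * (m * 8))
  refine ⟨N0 + 2 * K, fun N hN => ?_⟩
  have h3 := hN0 N (by omega)
  rw [h1]
  have h4 : 2 * (m * 8) * Nat.size (N + 1) = 2 * (m * (8 * Nat.size (N + 1))) := by ring
  omega

theorem exists_g (S : ℕ → ℕ) : ∃ g : ℕ → ℕ, StrictMono g ∧
    ∀ (N m : ℕ), (∃ j, g j ≤ N ∧ m = j + 1) → tot S N m ≤ N := by
  choose F hF using tot_small S
  refine ⟨fun j => ((List.range (j + 1)).map (fun m => F (m + 1) + 1)).sum, ?_, ?_⟩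
  · refine strictMono_nat_of_lt_succ (fun j => ?_)
    show ((List.range (j + 1)).map _).sum < ((List.range (j + 1 + 1)).map _).sum
    rw [List.range_succ (n := j + 1), List.map_append, List.sum_append]
    simp
  · rintro N m ⟨j, hj, rfl⟩
    refine hF _ _ (le_trans ?_ hj)
    show F (j + 1) ≤ ((List.range (j + 1)).map _).sum
    rw [List.range_succ, List.map_append, List.sum_append]
    simp
    omega

end Pool.Agent.ADV
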