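import Pool.Agent.Lib_helper78.ADV.Easy
import Pool.Agent.Lib_helper78.RF.F.SEM
import Pool.Agent.Lib_helper78.RF.F.SUB

/-!
# Local families; reflection is a local family
-/

set_option autoImplicit false

namespace Pool.Agent.ADV

open Pool.Agent.CK Pool.Agent.RF

theorem lt_two_size (n : ℕ) : n < 2 ^ Nat.size n := Nat.lt_size_self n

theorem good_of_local {i : ℕ} {φ : Fm} (h : LocalFam i φ) (hf : ∀ j, φ.free j → j = i) :
    ∃ c, Fam.Good (i, c, φ) := by
  obtain ⟨c, hc⟩ := h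
  refine ⟨c, hf, fun n O O' hO => hc n O O' (fun x hx => hO x (hx.trans ?_))⟩
  show n ^ c + c ≤ 2 ^ ((c + 1) * (Nat.size n + 1))
  have h1 : n ^ c ≤ 2 ^ (c * (Nat.size n + 1)) := by
    rw [mul_comm, pow_mul]
    refine Nat.pow_le_pow_left ?_ c
    have := lt_two_size n
    rw [pow_succ]; omega
  have h2 : c ≤ 2 ^ (c * (Nat.size n + 1)) :=
    Nat.lt_two_pow_self.le.trans (Nat.pow_le_pow_right (by norm_num)
      (Nat.le_mul_of_pos_right _ (by omega)))
  have h3 : 2 ^ ((c + 1) * (Nat.size n + 1)) =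
      2 ^ (c * (Nat.size n + 1)) * 2 ^ (Nat.size n + 1) := by
    rw [← pow_add]; congr 1; ring
  have h4 : 2 ≤ 2 ^ (Nat.size n + 1) := by
    rw [pow_succ]; have := Nat.one_le_two_pow (n := Nat.size n); omega
  rw [h3]
  have h5 := Nat.mul_le_mul_left (2 ^ (c * (Nat.size n + 1))) h4
  omega

/-- the sentence `Σ^b_1RFN_T(n)` with the variable `5` for `n` -/
def rfnF (T : Th) : Fm :=
  Fm.all 0 (Fm.all 1 (Fm.all 2 (Fm.all 3 (Fm.imp
    (Fm.and (Fm.le (Tm.len (Tm.var 0)) (Tm.var 5)) (Fm.and (Fm.le (Tm.len (Tm.var 1)) (Tm.var 5))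
      (Fm.and (Fm.le (Tm.len (Tm.var 2)) (Tm.var 5)) (Fm.and (Fm.le (Tm.len (Tm.var 3)) (Tm.var 5))
        (Pr T (Tm.var 1) (Tm.sbn (Tm.var 0) (Tm.var 2) (Tm.var 3)))))))
    (mu (Tm.var 0) (Tm.var 2) (Tm.var 3))))))

theorem clk_sb (k i : ℕ) (t a : Tm) : (clk k t).sb i a = clk k (t.sb i a) := by
  induction k with
  | zero => rfl
  | succ k ih => simp [clk, Tm.sb, ih]

theorem rfnF_sb (T : Th) (n : ℕ) : (rfnF T).sb 5 (num n) = RFN T n := by
  simp only [rfnF, RFN, Fm.sb, Fm.and, RF.Pr, mu, Tm.sb, clk_sb, SUB_tm_sb (num_has 5 _)]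
  norm_num

theorem rfnF_free (T : Th) (j : ℕ) (h : (rfnF T).free j) : j = 5 := by
  have h1 : ¬ (num (val (cEnc T.1))).has j := num_has j _
  have h2 : (clk T.2 (Tm.var 1)).has j → 1 = j := fun h => SEM_clk_has h
  simp only [rfnF, Fm.free, Fm.and, RF.Pr, mu, Tm.has] at h
  by_contra hj
  have hj' : ¬ 5 = j := fun h => hj h.symm
  tauto

theorem rfn_good (T : Th) : Fam.Good (5, 2 * T.2 + 3, rfnF T) := by
  refine ⟨rfnF_free T, fun n O O' hO => ?_⟩
  have key : ∀ O : Lang, (Fam.at (5, 2 * T.2 + 3, rfnF T) n).True O ↔ RfnT O T n := by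
    intro O
    unfold Fam.at
    rw [rfnF_sb]
    exact ⟨fun h => (holds_RFN O (fun _ => 0) T n).1 (h _), fun h v => (holds_RFN O v T n).2 h⟩
  rw [key, key]
  refine RfnT_congr (fun x hx => hO x (hx.le.trans ((dep_poly _ _).trans ?_)))
  show (n + 4) ^ (T.2 + 2) ≤ 2 ^ ((2 * T.2 + 3 + 1) * (Nat.size n + 1))
  have h1 : n + 4 ≤ 2 ^ (2 * (Nat.size n + 1)) := by
    have h2 := lt_two_size n
    have h3 : 2 ^ (2 * (Nat.size n + 1)) = 2 ^ Nat.size n * (4 * 2 ^ Nat.size n) := by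
      have : 2 * (Nat.size n + 1) = Nat.size n + (2 + Nat.size n) := by ring
      rw [this, pow_add, pow_add]; norm_num
    have h4 := Nat.mul_le_mul_right (4 * 2 ^ Nat.size n)
      (Nat.one_le_two_pow (n := Nat.size n))
    have h5 := Nat.one_le_two_pow (n := Nat.size n)
    rw [h3]; omega
  have h2 : (2 * T.2 + 3 + 1) * (Nat.size n + 1) = 2 * (Nat.size n + 1) * (T.2 + 2) := by ring
  rw [h2, pow_mul 2 (2 * (Nat.size n + 1))]
  exact Nat.pow_le_pow_left h1 _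

theorem rfn_true {O : Lang} {B : Fm → Prop} {T : Th} (hB : Base O B) (hT : InT O B T) (n : ℕ) :
    (RFN T n).True O := fun v => (holds_RFN O v T n).2 (inT_rfnT hB hT n)

end Pool.Agent.ADV
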