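import Pool.Agent.Lib_helper78.ADV.Dec
import Pool.Agent.Lib_helper78.ADV.Gam
import Pool.Agent.Lib_helper78.ADV.Rfn
import Pool.Agent.Lib_helper78.RO.F.BAL

/-!
# The advice; the theorem
-/

set_option autoImplicit false

namespace Pool.Agent.ADV

open Pool.Agent.CK Pool.Agent.RF Pool.Agent.CKP Pool.Agent.RO

open Classical in
/-- the least level `≤ N` at which the family is seen to be false, `N + 1` if there is none -/
noncomputable def hiN (O : Lang) (e : Fam) (N : ℕ) : ℕ :=
  if h : ∃ l, l ≤ N ∧ ¬ Alive O e l then Nat.find h else N + 1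

theorem hiN_le (O : Lang) (e : Fam) (N : ℕ) : hiN O e N ≤ N + 1 := by
  classical
  unfold hiN
  split_ifs with h
  · have := (Nat.find_spec h).1
    omega
  · exact le_rfl

theorem hiN_iff {O : Lang} {e : Fam} {N l : ℕ} (hl : l ≤ N) : l < hiN O e N ↔ Alive O e l := by
  classical
  unfold hiN
  split_ifs with h
  · constructor
    · intro h1
      have h2 := Nat.find_min h h1
      by_contra h3
      exact h2 ⟨hl, h3⟩
    · intro h1
      by_contra h2
      exact (Nat.find_spec h).2 (alive_anti (Nat.not_lt.1 h2) h1)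
  · constructor
    · intro _
      by_contra h3
      exact h ⟨l, hl, h3⟩
    · intro _
      omega

/-- the entry of the `j`-th family -/
noncomputable def entN (O : Lang) (en : ℕ → Fam) (g : ℕ → ℕ) (N j : ℕ) : Ent :=
  (fmT (en j).2.2, List.replicate (en j).1 (), List.replicate (en j).2.1 (), g j, hiN O (en j) N)

theorem exists_act {g : ℕ → ℕ} (hg : StrictMono g) (N : ℕ) : ∃ j, N < g j :=
  ⟨N + 1, lt_of_lt_of_le (Nat.lt_succ_self N) (hg.id_le (N + 1))⟩

open Classical in
/-- the number of families in the table of level `N` -/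
noncomputable def act (g : ℕ → ℕ) (hg : StrictMono g) (N : ℕ) : ℕ := Nat.find (exists_act hg N)

theorem lt_act {g : ℕ → ℕ} (hg : StrictMono g) {N j : ℕ} : j < act g hg N ↔ g j ≤ N := by
  classical
  unfold act
  constructor
  · intro h
    exact Nat.not_lt.1 (Nat.find_min (exists_act hg N) h)
  · intro h
    by_contra h2
    have h3 := Nat.find_spec (exists_act hg N)
    have h4 := hg.monotone (Nat.not_lt.1 h2)
    omega

open Classical in
/-- the table of level `N` -/
noncomputable def tab (O : Lang) (en : ℕ → Fam) (g : ℕ → ℕ) (hg : StrictMono g) (N : ℕ) :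
    List Ent :=
  ((List.range (act g hg N)).filter (fun j => decide (en j).Good)).map (entN O en g N)

theorem mem_tab {O : Lang} {en : ℕ → Fam} {g : ℕ → ℕ} {hg : StrictMono g} {N : ℕ} {e : Ent} :
    e ∈ tab O en g hg N ↔ ∃ j, (g j ≤ N ∧ (en j).Good) ∧ entN O en g N j = e := by
  unfold tab
  rw [List.mem_map]
  simp only [List.mem_filter, List.mem_range, decide_eq_true_eq, lt_act]

/-- the size of the fixed part of an entry -/
def fixS (en : ℕ → Fam) (j : ℕ) : ℕ :=
  sz (fmT (en j).2.2) + sz (List.replicate (en j).1 ()) + sz (List.replicate (en j).2.1 ())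

theorem sz_ent {O : Lang} {en : ℕ → Fam} {g : ℕ → ℕ} {N j : ℕ} (h : g j ≤ N) :
    sz (entN O en g N j) + 1 ≤ fixS en j + 8 * Nat.size (N + 1) + 16 := by
  have h1 : sz (entN O en g N j) = sz (fmT (en j).2.2) + (sz (List.replicate (en j).1 ()) +
      (sz (List.replicate (en j).2.1 ()) + (sz (g j) + sz (hiN O (en j) N) + 1) + 1) + 1) + 1 :=
    rfl
  have h2 := num_sz_le (g j)
  have h3 := num_sz_le (hiN O (en j) N)
  have h4 : Nat.size (g j) ≤ Nat.size (N + 1) := Nat.size_le_size (by omega)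
  have h5 : Nat.size (hiN O (en j) N) ≤ Nat.size (N + 1) := Nat.size_le_size (hiN_le _ _ _)
  rw [h1]
  unfold fixS
  omega

theorem sz_filter (f : ℕ → Ent) (p : ℕ → Bool) (b : ℕ → ℕ) (L : List ℕ)
    (h : ∀ j ∈ L, sz (f j) + 1 ≤ b j) : sz ((L.filter p).map f) ≤ 1 + (L.map b).sum := by
  induction L with
  | nil => simp
  | cons a t ih =>
    have h1 := ih (fun j hj => h j (List.mem_cons_of_mem _ hj))
    have h2 := h a List.mem_cons_self
    rw [List.filter_cons, List.map_cons, List.sum_cons]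
    by_cases hp : p a = true
    · rw [if_pos hp, List.map_cons, sz_cons]
      omega
    · rw [if_neg hp]
      omega

theorem sz_tab {O : Lang} {en : ℕ → Fam} {g : ℕ → ℕ} {hg : StrictMono g} {N : ℕ} :
    sz (tab O en g hg N) ≤ tot (fixS en) N (act g hg N) := by
  unfold tab tot
  refine sz_filter _ _ (fun j => fixS en j + 8 * Nat.size (N + 1) + 16) _ (fun j hj => ?_)
  exact sz_ent ((lt_act hg).1 (List.mem_range.1 hj))

open Classical in
/-- the advice -/
noncomputable def adv (O : Lang) (en : ℕ → Fam) (g : ℕ → ℕ) (hg : StrictMono g) (n : ℕ) :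
    List Bool :=
  if tab O en g hg (ix n) = [] then [] else (toD (tab O en g hg (ix n))).enc

theorem adv_len {O : Lang} {en : ℕ → Fam} {g : ℕ → ℕ} {hg : StrictMono g}
    (h : ∀ (N m : ℕ), (∃ j, g j ≤ N ∧ m = j + 1) → tot (fixS en) N m ≤ N) (n : ℕ) :
    (adv O en g hg n).length ≤ ix n := by
  unfold adv
  split_ifs with ht
  · exact Nat.zero_le _
  · rw [D.enc_length]
    refine le_trans (sz_tab (O := O) (en := en) (hg := hg)) ?_
    rcases Nat.eq_zero_or_pos (act g hg (ix n)) with h0 | h0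
    · exfalso
      apply ht
      unfold tab
      rw [h0]
      rfl
    · refine h _ _ ⟨act g hg (ix n) - 1, (lt_act hg).1 (by omega), by omega⟩

theorem adv_dec {O : Lang} {en : ℕ → Fam} {g : ℕ → ℕ} {hg : StrictMono g} (n : ℕ) :
    (toList (dec (adv O en g hg n))).map toEnt = tab O en g hg (ix n) := by
  unfold adv
  split_ifs with ht
  · rw [ht]; rfl
  · rw [dec_enc]
    exact dcp_map toEnt toEnt_toD _

theorem adv_correct {en : ℕ → Fam} {g : ℕ → ℕ} {hg : StrictMono g} {R : Lang} (n : ℕ)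
    (x : List Bool) (hx : x.length ≤ n) :
    HN en g R x = advA (pairS x (adv (ON en g R) en g hg n)) := by
  have key : HN en g R x = true ↔ advA (pairS x (adv (ON en g R) en g hg n)) = true := by
    unfold advA advB
    rw [HN_iff, fstS_pair, sndS_pair, adv_dec, List.any_eq_true]
    constructor
    · rintro ⟨j, m, k, h1, h2, h3, h4, h5⟩
      refine ⟨_, mem_tab.2 ⟨j, ⟨h3.trans (ix_mono hx), h2⟩, rfl⟩, ?_⟩
      exact (lookB_iff x (en j) _ _).2 ⟨⟨h3, (hiN_iff (ix_mono hx)).2 h5⟩, m, k, h1, h4⟩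
    · rintro ⟨e, he, h⟩
      obtain ⟨j, ⟨h1, h2⟩, rfl⟩ := mem_tab.1 he
      obtain ⟨⟨h3, h4⟩, m, k, h5, h6⟩ := (lookB_iff x (en j) _ _).1 h
      exact ⟨j, m, k, h5, h2, h3, h6, (hiN_iff (ix_mono hx)).1 h4⟩
  rw [Bool.eq_iff_iff]
  exact key

theorem final : ∃ A : Lang, InP (fun _ => false) A ∧
    ∀ R : Lang, ∃ (H : Lang) (w : ℕ → List Bool),
      ((∀ n, (w n).length ≤ Nat.log 2 (Nat.log 2 n)) ∧
        ∀ (n : ℕ) (x : List Bool), x.length ≤ n → H x = A (pairS x (w n))) ∧
      (∃ B, Base (join R H) B ∧ ∀ σ, S12 σ → B σ) ∧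
      ∀ B, Base (join R H) B → ∃ S, InT (join R H) B S ∧
        (∀ T, InT (join R H) B T → EasyProofs (join R H) S (RFN T)) ∧
        ∀ (i : ℕ) (φ : Fm), LocalFam i φ → (∀ j, φ.free j → j = i) →
          (∀ n, (φ.sb i (num n)).True (join R H)) →
          EasyProofs (join R H) S (fun n => φ.sb i (num n)) := by
  obtain ⟨en, hen⟩ := exists_en
  obtain ⟨g, hg, hg2⟩ := exists_g (fixS en)
  refine ⟨advA, advA_inP, fun R => ⟨HN en g R, adv (ON en g R) en g hg,
    ⟨adv_len hg2, fun n x hx => adv_correct n x hx⟩, ?_⟩⟩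
  rw [← ON_eq]
  refine ⟨?_, fun B hB => ?_⟩
  · obtain ⟨B, hB, hS⟩ := base_all (ON en g R)
    exact ⟨B, hB.toBase, hS⟩
  · obtain ⟨S, hS, hax⟩ := adv_S hB code_ok
    have key : ∀ e : Fam, e.Good → (∀ n, (e.at n).True (ON en g R)) →
        EasyProofs (ON en g R) S e.at := by
      intro e he ht
      obtain ⟨j, rfl⟩ := hen e
      exact easy_code hax j he ht
    refine ⟨S, hS, fun T hT => ?_, fun i φ hl hf ht => ?_⟩
    · have h1 := key _ (rfn_good T) (fun n => by
        unfold Fam.at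
        rw [rfnF_sb]
        exact rfn_true hB hT n)
      have h2 : Fam.at (5, 2 * T.2 + 3, rfnF T) = RFN T := by
        funext n
        exact rfnF_sb T n
      rw [h2] at h1
      exact h1
    · obtain ⟨c, hc⟩ := good_of_local hl hf
      exact key (i, c, φ) hc ht

end Pool.Agent.ADV
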