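import Pool.Agent.Lib_helper78.RF.Defs

/-!
# Local families of sentences, easy proofs, advice (MP_5c38ab_lc)
-/

set_option autoImplicit false

namespace Pool.Agent.ADV

open Pool.Agent.CK Pool.Agent.RF

/-- the code of a pair of strings: `1^|x| 0 x y` -/
def pairS (x y : List Bool) : List Bool := tag x.length ++ (x ++ y)

/-- The sentences `φ(n)` (`n` is substituted for the variable `i`) form a polynomially local
family: for some polynomial `p`, the truth of `φ(n)` only depends on the oracle up to the length
`p(n)`. -/
def LocalFam (i : ℕ) (φ : Fm) : Prop :=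
  ∃ c : ℕ, ∀ (n : ℕ) (O O' : Lang), (∀ x : List Bool, x.length ≤ n ^ c + c → O x = O' x) →
    ((φ.sb i (num n)).True O ↔ (φ.sb i (num n)).True O')

/-- Proofs in `S` of the sentences `Φ n` have polynomial length and can be computed from `1^n` in
polynomial time (without oracle). -/
def EasyProofs (O : Lang) (S : Th) (Φ : ℕ → Fm) : Prop :=
  PolyBounded O S Φ ∧ ∃ f : List Bool → List Bool, InFP (fun _ => false) f ∧
    ∀ n, ∃ l : List Fm, IsProof (Ax O S) (l ++ [Φ n]) ∧
      f (List.replicate n true) = pEnc (l ++ [Φ n])

end Pool.Agent.ADV
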