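import Pool.Agent.Lib_helper78.ADV.Base
import Pool.Agent.Lib_helper78.RF.F.SEX
import Pool.Agent.Lib_helper78.RF.F.REG
import Pool.Agent.Lib_helper78.RF.F.MKO
import Pool.Agent.Lib_helper78.RF.F.ENC
import Pool.Agent.Lib_helper78.RF.F.DEP

/-!
# The code region, relative to an arbitrary oracle
-/

set_option autoImplicit false

namespace Pool.Agent.ADV

open Pool.Agent.CK Pool.Agent.RF

/-- the level of a length -/
def ix (N : ℕ) : ℕ := Nat.log 2 (Nat.log 2 N)

/-- a family: variable, locality exponent, formula -/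
abbrev Fam : Type := ℕ × ℕ × Fm

/-- the members of the family -/
def Fam.at (e : Fam) (n : ℕ) : Fm := e.2.2.sb e.1 (num n)

/-- the dependency exponent: `e.at n` depends on the oracle up to the length `2 ^ Fam.dep e n` -/
def Fam.dep (e : Fam) (n : ℕ) : ℕ := (e.2.1 + 1) * (Nat.size n + 1)

/-- the family consists of sentences and is local -/
def Fam.Good (e : Fam) : Prop :=
  (∀ j, e.2.2.free j → j = e.1) ∧
  ∀ (n : ℕ) (O O' : Lang), (∀ x : List Bool, x.length ≤ 2 ^ e.dep n → O x = O' x) →
    ((e.at n).True O ↔ (e.at n).True O')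

/-- the family is true as far as it can be seen at level `l` -/
def Alive (O : Lang) (e : Fam) (l : ℕ) : Prop := ∀ n, e.dep n ≤ 2 ^ l → (e.at n).True O

theorem alive_anti {O : Lang} {e : Fam} {l l' : ℕ} (h : l ≤ l') (h' : Alive O e l') :
    Alive O e l := fun n hn => h' n (hn.trans (Nat.pow_le_pow_right (by norm_num) h))

/-- the content of the code region -/
def CodeN (en : ℕ → Fam) (g : ℕ → ℕ) (O : Lang) (x : List Bool) : Prop :=
  ∃ (j m n : ℕ), x = false :: (pad m ((en j).at n)).enc ∧ (en j).Good ∧ g j ≤ ix x.length ∧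
    (en j).dep n ≤ 2 ^ ix x.length ∧ Alive O (en j) (ix x.length)

open Classical in
/-- the operator -/
noncomputable def RN (en : ℕ → Fam) (g : ℕ → ℕ) (O : Lang) : Lang
  | true :: x => decide (CodeN en g O x)
  | _ => false

/-- the oracle `R ⊕ H` -/
noncomputable def ON (en : ℕ → Fam) (g : ℕ → ℕ) (R : Lang) : Lang :=
  mkO (RN en g) (fun x => R x.tail)

/-- the second part -/
noncomputable def HN (en : ℕ → Fam) (g : ℕ → ℕ) (R : Lang) : Lang :=
  fun x => ON en g R (true :: x)

theorem lev_le {N : ℕ} (hN : 2 ≤ N) : 2 ^ 2 ^ ix N ≤ N := by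
  unfold ix
  have h1 : Nat.log 2 N ≠ 0 := by
    have := Nat.log_pos (b := 2) (by norm_num) hN
    omega
  have h2 : 2 ^ Nat.log 2 (Nat.log 2 N) ≤ Nat.log 2 N := Nat.pow_log_le_self 2 h1
  exact (Nat.pow_le_pow_right (by norm_num) h2).trans (Nat.pow_log_le_self 2 (by omega))

theorem code_len {x : List Bool} {φ : Fm} {m : ℕ} (h : x = false :: (pad m φ).enc) :
    2 ≤ x.length := by
  rw [h, List.length_cons, pad_len]
  omega

theorem code_imp {en : ℕ → Fam} {g : ℕ → ℕ} {O O' : Lang} {x : List Bool}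
    (h : ∀ y : List Bool, y.length ≤ x.length → O y = O' y) (hx : CodeN en g O x) :
    CodeN en g O' x := by
  obtain ⟨j, m, n, h1, h2, h3, h4, h5⟩ := hx
  refine ⟨j, m, n, h1, h2, h3, h4, fun k hk => ?_⟩
  refine (h2.2 k O O' (fun y hy => h y ?_)).1 (h5 k hk)
  exact hy.trans ((Nat.pow_le_pow_right (by norm_num) hk).trans (lev_le (code_len h1)))

theorem RN_local (en : ℕ → Fam) (g : ℕ → ℕ) : Local (RN en g) := by
  intro x O O' h
  match x with
  | [] => rfl
  | false :: x => rfl
  | true :: x =>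
    have h1 : ∀ y : List Bool, y.length ≤ x.length → O y = O' y := fun y hy =>
      h y (by rw [List.length_cons]; omega)
    have h2 : CodeN en g O x ↔ CodeN en g O' x :=
      ⟨code_imp h1, code_imp (fun y hy => (h1 y hy).symm)⟩
    simp only [RN]
    exact decide_eq_decide.2 h2

theorem ON_eq (en : ℕ → Fam) (g : ℕ → ℕ) (R : Lang) : ON en g R = join R (HN en g R) := by
  funext x
  match x with
  | [] =>
    unfold ON
    rw [mkO_eq (RN_local en g), if_neg (by simp)]
    rfl
  | false :: x =>
    unfold ON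
    rw [mkO_eq (RN_local en g), if_pos (by simp)]
    rfl
  | true :: x => rfl

theorem HN_iff (en : ℕ → Fam) (g : ℕ → ℕ) (R : Lang) (x : List Bool) :
    HN en g R x = true ↔ CodeN en g (ON en g R) x := by
  unfold HN
  have h : ON en g R (true :: x) = RN en g (ON en g R) (true :: x) := by
    unfold ON
    rw [mkO_eq (RN_local en g), if_neg (by simp)]
  rw [h]
  simp [RN]

end Pool.Agent.ADV
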