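import Pool.Agent.Lib_helper78.ADV.Easy
import Pool.Agent.Lib_helper78.RO.F.DCP
import Pool.Agent.Lib_helper78.RO.F.EQT

/-!
# The decoder of the advice
-/

set_option autoImplicit false

namespace Pool.Agent.ADV

open Pool.Agent.CK Pool.Agent.RF Pool.Agent.CKP Pool.Agent.RO

variable {O : Lang} {γ : Type} [ToD γ]

/-! ## Pairs of strings -/

/-- the number of leading ones, in unary -/
def lead (y : List Bool) : List Unit :=
  List.rec (motive := fun _ => List Unit) [] (fun a _ r => if a = true then () :: r else []) y

theorem PTime_lead {y : γ → List Bool} (hy : PTime O y) : PTime O (fun x => lead (y x)) := by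
  unfold lead
  refine PTime.listRec_add (l := y) (n := fun _ => ([] : List Unit))
    (c := fun _ a _ r => if a = true then () :: r else []) hy (PTime.const _)
    (PTime.ite PTime.id.snd.fst (PTime.cons (PTime.const _) PTime.id.snd.snd.snd)
      (PTime.const _)) (Polynomial.C 2) ?_
  intro x b a t _
  rw [Polynomial.eval_C]
  have h1 := sz_pos b
  cases a
  · simp
  · simp
    have : sz () = 1 := rfl
    omega

theorem lead_tag (n : ℕ) (z : List Bool) : lead (tag n ++ z) = List.replicate n () := by
  induction n with
  | zero => rfl
  | succ n ih =>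
    have h1 : lead (tag (n + 1) ++ z) = () :: lead (tag n ++ z) := rfl
    rw [h1, ih, List.replicate_succ]

/-- the part of the code of a pair after the tag -/
def restS (y : List Bool) : List Bool := udrop (() :: lead y) y

/-- the first component -/
def fstS (y : List Bool) : List Bool := (udrop (udrop (lead y) (restS y)) (restS y).reverse).reverse

/-- the second component -/
def sndS (y : List Bool) : List Bool := udrop (lead y) (restS y)

theorem restS_pair (x w : List Bool) : restS (pairS x w) = x ++ w := by
  unfold restS pairS
  rw [lead_tag, udrop_eq, List.length_cons, List.length_replicate]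
  have h : (tag x.length).length = x.length + 1 := VAL_tag_len _
  rw [← h, List.drop_left]

theorem sndS_pair (x w : List Bool) : sndS (pairS x w) = w := by
  unfold sndS
  rw [restS_pair, pairS, lead_tag, udrop_eq, List.length_replicate, List.drop_left]

theorem fstS_pair (x w : List Bool) : fstS (pairS x w) = x := by
  have h : udrop (lead (pairS x w)) (restS (pairS x w)) = w := sndS_pair x w
  unfold fstS
  rw [h, restS_pair, udrop_eq, List.reverse_append]
  have h2 : w.length = w.reverse.length := (List.length_reverse).symm
  rw [h2, List.drop_left, List.reverse_reverse]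

theorem PTime_restS {y : γ → List Bool} (hy : PTime O y) : PTime O (fun x => restS (y x)) :=
  PTime.udrop (PTime.cons (PTime.const _) (PTime_lead hy)) hy

theorem PTime_sndS {y : γ → List Bool} (hy : PTime O y) : PTime O (fun x => sndS (y x)) :=
  PTime.udrop (PTime_lead hy) (PTime_restS hy)

theorem PTime_fstS {y : γ → List Bool} (hy : PTime O y) : PTime O (fun x => fstS (y x)) :=
  PTime.reverse (PTime.udrop (PTime.udrop (PTime_lead hy) (PTime_restS hy))
    (PTime.reverse (PTime_restS hy)))

/-! ## Entries -/

/-- Entries of the advice: tokens of the formula, variable, locality exponent, first level,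
bound for the levels. -/
abbrev Ent : Type := List Tk × List Unit × List Unit × ℕ × ℕ

/-- decoding of numbers -/
def toNat (d : D) : ℕ := ofBits (toBits d)

/-- decoding of entries -/
def toEnt (d : D) : Ent :=
  (toTks d.car, toU d.cdr.car, toU d.cdr.cdr.car, toNat d.cdr.cdr.cdr.car, toNat d.cdr.cdr.cdr.cdr)

theorem toNat_toD (n : ℕ) : toNat (toD n) = n := by
  unfold toNat
  rw [num_toD, toBits_toD, ofBits_bits]

theorem toEnt_toD (e : Ent) : toEnt (toD e) = e := by
  obtain ⟨p, i, c, lo, hi⟩ := e
  show (toTks (toD p), toU (toD i), toU (toD c), toNat (toD lo), toNat (toD hi)) = _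
  rw [toTks_toD, dcp_toU_toD, dcp_toU_toD, toNat_toD, toNat_toD]

theorem PTime_toNat {d : γ → D} (hd : PTime O d) : PTime O (fun x => toNat (d x)) :=
  PTime.ofBits (PTime.toBits hd)

theorem PTime_toEnt {d : γ → D} (hd : PTime O d) : PTime O (fun x => toEnt (d x)) :=
  (PTime_toTks hd.car).pair ((PTime_toU hd.cdr.car).pair ((PTime_toU hd.cdr.cdr.car).pair
    ((PTime_toNat hd.cdr.cdr.cdr.car).pair (PTime_toNat hd.cdr.cdr.cdr.cdr))))

/-- the level of the length of a string, in unary -/
def ixL (x : List Bool) : List Unit := ulen (x.length.bits.tail.length).bits.tail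

theorem bits_tail_log (n : ℕ) : n.bits.tail.length = Nat.log 2 n := by
  rw [List.length_tail, Nat.size_eq_bits_len]
  rcases Nat.eq_zero_or_pos n with h | h
  · subst h; simp
  · have h1 : 0 < Nat.size n := Nat.size_pos.2 h
    symm
    rw [Nat.log_eq_iff (Or.inr ⟨by norm_num, by omega⟩)]
    refine ⟨?_, ?_⟩
    · rw [← Nat.lt_size]; omega
    · have h2 : Nat.size n - 1 + 1 = Nat.size n := by omega
      rw [h2]
      exact Nat.lt_size_self n

theorem ixL_len (x : List Bool) : (ixL x).length = ix x.length := by
  unfold ixL ix
  rw [ulen_eq, List.length_replicate, bits_tail_log, bits_tail_log]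

theorem PTime_ixL {y : γ → List Bool} (hy : PTime O y) : PTime O (fun x => ixL (y x)) :=
  PTime.ulen (PTime.tail (PTime.bits (PTime.length (PTime.tail (PTime.bits (PTime.length hy))))))

theorem PTime_look1 {y : γ → List Bool} {e : γ → Ent} {u : γ → List Unit} (hy : PTime O y)
    (he : PTime O e) (hu : PTime O u) : PTime O (fun x =>
      decide ((umul (() :: (e x).2.2.1) (() :: ulen (u x).length.bits)).length ≤
        ushl (ixL (y x)) 1)) := by
  have h1 : PTime O (fun x => (umul (() :: (e x).2.2.1) (() :: ulen (u x).length.bits)).length) :=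
    PTime.length (PTime.umul (PTime.cons (PTime.const ()) (PTime.fst (PTime.snd (PTime.snd he))))
      (PTime.cons (PTime.const ()) (PTime.ulen (PTime.bits (PTime.length hu)))))
  have h2 : PTime O (fun x => ushl (ixL (y x)) 1) := PTime.ushl (PTime_ixL hy) (PTime.const 1)
  exact PTime.nat_le h1 h2

theorem PTime_look2 {y : γ → List Bool} {e : γ → Ent} {u m : γ → List Unit} (hy : PTime O y)
    (he : PTime O e) (hu : PTime O u) (hm : PTime O m) : PTime O (fun x =>
      eqT (y x) (false :: encT (padK (m x) (famT (e x).2.1 (e x).1 (u x))))) := by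
  have h1 : PTime O (fun x => famT (e x).2.1 (e x).1 (u x)) :=
    PTime_famT (PTime.fst (PTime.snd he)) (PTime.fst he) hu
  exact PTime_eqT hy (PTime.cons (PTime.const false) (PTime_encT (PTime_padK hm h1)))

/-- the search for the padding -/
def look3 (x : List Bool) (e : Ent) (u : List Unit) : Bool :=
  (rangeU (ulen x)).any (fun m => eqT x (false :: encT (padK m (famT e.2.1 e.1 u))))

theorem PTime_look3 {y : γ → List Bool} {e : γ → Ent} {u : γ → List Unit} (hy : PTime O y)
    (he : PTime O e) (hu : PTime O u) : PTime O (fun x => look3 (y x) (e x) (u x)) := by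
  unfold look3
  refine PTime.any (f := fun x m =>
    eqT (y x) (false :: encT (padK m (famT (e x).2.1 (e x).1 (u x)))))
    (PTime.rangeU (PTime.ulen hy)) ?_
  exact PTime_look2 (y := fun q : γ × List Unit => y q.1) (e := fun q => e q.1)
    (u := fun q => u q.1) (m := fun q => q.2) (hy.comp PTime.id.fst) (he.comp PTime.id.fst)
    (hu.comp PTime.id.fst) PTime.id.snd

/-- the test of the number and the search for the padding -/
def look5 (x : List Bool) (e : Ent) (u : List Unit) : Bool :=
  decide ((umul (() :: e.2.2.1) (() :: ulen u.length.bits)).length ≤ ushl (ixL x) 1) &&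
    look3 x e u

theorem PTime_look5 {y : γ → List Bool} {e : γ → Ent} {u : γ → List Unit} (hy : PTime O y)
    (he : PTime O e) (hu : PTime O u) : PTime O (fun x => look5 (y x) (e x) (u x)) :=
  PTime.and (PTime_look1 hy he hu) (PTime_look3 hy he hu)

/-- the search for the number and the padding -/
def look4 (x : List Bool) (e : Ent) : Bool := (rangeU (ulen x)).any (fun u => look5 x e u)

theorem PTime_look4 {y : γ → List Bool} {e : γ → Ent} (hy : PTime O y) (he : PTime O e) :
    PTime O (fun x => look4 (y x) (e x)) :=
  PTime.any (l := fun x => rangeU (ulen (y x))) (f := fun x u => look5 (y x) (e x) u)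
    (PTime.rangeU (PTime.ulen hy)) (PTime_look5 (y := fun q : γ × List Unit => y q.1)
      (e := fun q => e q.1) (u := fun q => q.2) (hy.comp PTime.id.fst) (he.comp PTime.id.fst)
      PTime.id.snd)

/-- the entry says that the string is in the oracle -/
def lookB (x : List Bool) (e : Ent) : Bool :=
  (decide (e.2.2.2.1 ≤ (ixL x).length) && decide ((ixL x).length + 1 ≤ e.2.2.2.2)) && look4 x e

theorem PTime_lookB {y : γ → List Bool} {e : γ → Ent} (hy : PTime O y) (he : PTime O e) :
    PTime O (fun x => lookB (y x) (e x)) := by
  have h0 : PTime O (fun x => (ixL (y x)).length) := PTime.length (PTime_ixL hy)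
  have h1 : PTime O (fun x => decide ((e x).2.2.2.1 ≤ (ixL (y x)).length)) :=
    PTime.nat_le (PTime.fst (PTime.snd (PTime.snd (PTime.snd he)))) h0
  have h2 : PTime O (fun x => decide ((ixL (y x)).length + 1 ≤ (e x).2.2.2.2)) :=
    PTime.nat_le (PTime.nat_add h0 (PTime.const 1))
      (PTime.snd (PTime.snd (PTime.snd (PTime.snd he))))
  unfold lookB
  exact (h1.and h2).and (PTime_look4 hy he)

/-- the decoder -/
def advB (x w : List Bool) : Bool := ((toList (dec w)).map toEnt).any (lookB x)

/-- the set `A` -/
def advA (y : List Bool) : Bool := advB (fstS y) (sndS y)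

theorem advA_inP : InP (fun _ => false) advA := by
  refine inP_of ?_
  unfold advA advB
  refine PTime.any (f := fun y e => lookB (fstS y) e)
    (PTime.map (f := fun _ d => toEnt d) (PTime.toList (PTime.dec (PTime_sndS PTime.id)))
      (PTime_toEnt PTime.id.snd)) ?_
  exact PTime_lookB ((PTime_fstS PTime.id).comp PTime.id.fst) PTime.id.snd

/-! ## Meaning -/

theorem mem_rangeU {x : List Bool} {u : List Unit} :
    u ∈ rangeU (ulen x) ↔ u.length < x.length := by
  rw [ulen_eq, rangeU_replicate]
  constructor
  · intro h
    obtain ⟨i, hi, rfl⟩ := List.mem_map.1 h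
    rw [List.length_replicate]
    exact List.mem_range.1 hi
  · intro h
    refine List.mem_map.2 ⟨u.length, List.mem_range.2 h, ?_⟩
    exact (pdq_unit u).symm

theorem lookB_iff (x : List Bool) (e : Fam) (lo hi : ℕ) :
    lookB x (fmT e.2.2, List.replicate e.1 (), List.replicate e.2.1 (), lo, hi) = true ↔
      (lo ≤ ix x.length ∧ ix x.length < hi) ∧
      ∃ m n, x = false :: (pad m (e.at n)).enc ∧ e.dep n ≤ 2 ^ ix x.length := by
  have hd : ∀ u : List Unit, (umul (() :: List.replicate e.2.1 ())
      (() :: ulen u.length.bits)).length = e.dep u.length := by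
    intro u
    have h1 : (() :: ulen u.length.bits) = List.replicate (Nat.size u.length + 1) () := by
      rw [ulen_eq, Nat.size_eq_bits_len, List.replicate_succ]
    have h2 : (() :: List.replicate e.2.1 ()) = List.replicate (e.2.1 + 1) () := by
      rw [List.replicate_succ]
    rw [h1, h2, umul_replicate, List.length_replicate]
    rfl
  have hx : ∀ m u : List Unit, (eqT x (false :: encT (padK m (famT (List.replicate e.1 ())
      (fmT e.2.2) u))) = true ↔ x = false :: (pad m.length (e.at u.length)).enc) := by
    intro m u
    rw [eqT_bits, famT_eq, pdq_unit m, padK_fm, encT_fm, List.length_replicate]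
  unfold lookB look4 look5 look3
  simp only [Bool.and_eq_true, decide_eq_true_eq, List.any_eq_true, mem_rangeU, ixL_len, hd,
    ushl_eq, one_mul, hx]
  constructor
  · rintro ⟨⟨h1, h2⟩, u, hu, h3, m, hm, h4⟩
    exact ⟨⟨h1, h2⟩, m.length, u.length, h4, h3⟩
  · rintro ⟨⟨h1, h2⟩, m, n, h3, h4⟩
    have hlen := code_len h3
    have hn : n < x.length := by
      have h5 : Nat.size n < 2 ^ ix x.length := by
        have h6 : Nat.size n + 1 ≤ e.dep n := Nat.le_mul_of_pos_left _ (Nat.succ_pos _)
        omega
      have h7 := Nat.pow_lt_pow_right (a := 2) (by norm_num) h5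
      have h8 := lev_le hlen
      have h9 := Nat.lt_size_self n
      omega
    have hm : m < x.length := by
      rw [h3, List.length_cons, pad_len]; omega
    refine ⟨⟨h1, h2⟩, List.replicate n (), ?_, ?_, List.replicate m (), ?_, ?_⟩
    · rw [List.length_replicate]; exact hn
    · rw [List.length_replicate]; exact h4
    · rw [List.length_replicate]; exact hm
    · rw [List.length_replicate, List.length_replicate]; exact h3

end Pool.Agent.ADV
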