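import Pool.Agent.Lib_helper78.ADV.Code
import Pool.Agent.Lib_helper78.RF.F.FNA
import Pool.Agent.Lib_helper78.RO.F.PDQ
import Pool.Agent.Lib_helper78.RO.F.PDP
import Pool.Agent.Lib_helper78.RO.F.RDN
import Pool.Agent.Lib_helper78.RO.F.ENB
import Pool.Agent.Lib_helper78.RO.F.RFP
import Pool.Agent.Lib_helper78.RO.F.RFT
import Pool.Agent.Lib_helper78.RO.F.TDP
import Pool.Agent.Lib_helper78.RO.F.TDC

/-!
# Easy proofs of the sentences in the code region
-/

set_option autoImplicit false

namespace Pool.Agent.ADV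

open Pool.Agent.CK Pool.Agent.RF Pool.Agent.CKP Pool.Agent.RO

variable {O : Lang} {γ : Type} [ToD γ]

/-! ## Numerals -/

/-- the bit string with number `n` -/
def nb (u : List Unit) : List Bool := ((u.length + 1).bits).dropLast

theorem nb_val (u : List Unit) : val (nb u) = u.length := by
  have h0 : (u.length + 1).bits ≠ [] := by
    intro h
    have h1 := ofBits_bits (u.length + 1)
    rw [h] at h1
    simp at h1
  have h2 : (u.length + 1).bits.getLast h0 = true := by
    generalize hn : u.length + 1 = n at h0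
    have hn0 : n ≠ 0 := by omega
    clear hn
    induction n using Nat.strong_induction_on with
    | _ n ih =>
      by_cases h1 : n = 1
      · subst h1
        simp
      · have h3 : n / 2 ≠ 0 := by omega
        have h4 : n.bits = n.bodd :: n.div2.bits := num_bits_cons hn0
        have h5 : n.div2 = n / 2 := Nat.div2_val n
        rw [h5] at h4
        have h6 : (n / 2).bits ≠ [] := by
          intro h
          have h1 := ofBits_bits (n / 2)
          rw [h] at h1
          exact h3 h1.symm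
        have h7 := ih (n / 2) (by omega) h6 h3
        have h8 : n.bits.getLast h0 = (n.bodd :: (n / 2).bits).getLast (by simp) := by
          congr 1
        rw [h8, List.getLast_cons h6, h7]
  have h1 := sv_eq (nb u)
  have h3 : nb u ++ [true] = (u.length + 1).bits := by
    unfold nb
    rw [← h2]
    exact List.dropLast_append_getLast h0
  unfold sv at h1
  rw [h3, ofBits_bits] at h1
  omega

theorem PTime_nb {u : γ → List Unit} (hu : PTime O u) : PTime O (fun x => nb (u x)) :=
  PTime.dropLast (PTime.bits (PTime.nat_add (PTime.length hu) (PTime.const 1)))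

/-- the tokens of the member of a family -/
def famT (i : List Unit) (p : List Tk) (u : List Unit) : List Tk := sbT i (numT (nb u)) p

theorem famT_eq (e : Fam) (u : List Unit) :
    famT (List.replicate e.1 ()) (fmT e.2.2) u = fmT (e.at u.length) := by
  unfold famT Fam.at
  rw [numT_eq, nb_val, sbT_fm]

theorem PTime_famT {i u : γ → List Unit} {p : γ → List Tk} (hi : PTime O i) (hp : PTime O p)
    (hu : PTime O u) : PTime O (fun x => famT (i x) (p x) (u x)) :=
  PTime_sbT hi (PTime_numT (PTime_nb hu)) hp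

/-! ## Free variables -/

theorem tm_has_sb {a : Tm} {i j : ℕ} (ha : ¬ a.has j) : ∀ t : Tm, (t.sb i a).has j →
    t.has j ∧ j ≠ i
  | .var k, h => by
    by_cases hk : k = i
    · simp only [Tm.sb, if_pos hk] at h
      exact absurd h ha
    · simp only [Tm.sb, if_neg hk] at h
      have h1 : k = j := h
      exact ⟨h, fun h2 => hk (h1.trans h2)⟩
  | .zero, h => h.elim
  | .succ t, h => tm_has_sb ha t h
  | .half t, h => tm_has_sb ha t h
  | .len t, h => tm_has_sb ha t h
  | .add s t, h => by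
    rcases h with h | h
    · exact ⟨Or.inl (tm_has_sb ha s h).1, (tm_has_sb ha s h).2⟩
    · exact ⟨Or.inr (tm_has_sb ha t h).1, (tm_has_sb ha t h).2⟩
  | .mul s t, h => by
    rcases h with h | h
    · exact ⟨Or.inl (tm_has_sb ha s h).1, (tm_has_sb ha s h).2⟩
    · exact ⟨Or.inr (tm_has_sb ha t h).1, (tm_has_sb ha t h).2⟩
  | .smash s t, h => by
    rcases h with h | h
    · exact ⟨Or.inl (tm_has_sb ha s h).1, (tm_has_sb ha s h).2⟩
    · exact ⟨Or.inr (tm_has_sb ha t h).1, (tm_has_sb ha t h).2⟩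
  | .sbn r s t, h => by
    rcases h with h | h | h
    · exact ⟨Or.inl (tm_has_sb ha r h).1, (tm_has_sb ha r h).2⟩
    · exact ⟨Or.inr (Or.inl (tm_has_sb ha s h).1), (tm_has_sb ha s h).2⟩
    · exact ⟨Or.inr (Or.inr (tm_has_sb ha t h).1), (tm_has_sb ha t h).2⟩

theorem fm_free_sb {a : Tm} {i j : ℕ} (ha : ¬ a.has j) : ∀ φ : Fm, (φ.sb i a).free j →
    φ.free j ∧ j ≠ i
  | .eq s t, h => by
    rcases h with h | h
    · exact ⟨Or.inl (tm_has_sb ha s h).1, (tm_has_sb ha s h).2⟩
    · exact ⟨Or.inr (tm_has_sb ha t h).1, (tm_has_sb ha t h).2⟩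
  | .le s t, h => by
    rcases h with h | h
    · exact ⟨Or.inl (tm_has_sb ha s h).1, (tm_has_sb ha s h).2⟩
    · exact ⟨Or.inr (tm_has_sb ha t h).1, (tm_has_sb ha t h).2⟩
  | .orc t, h => tm_has_sb ha t h
  | .tr p q r s, h => by
    rcases h with h | h | h | h
    · exact ⟨Or.inl (tm_has_sb ha p h).1, (tm_has_sb ha p h).2⟩
    · exact ⟨Or.inr (Or.inl (tm_has_sb ha q h).1), (tm_has_sb ha q h).2⟩
    · exact ⟨Or.inr (Or.inr (Or.inl (tm_has_sb ha r h).1)), (tm_has_sb ha r h).2⟩
    · exact ⟨Or.inr (Or.inr (Or.inr (tm_has_sb ha s h).1)), (tm_has_sb ha s h).2⟩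
  | .prf p q r s, h => by
    rcases h with h | h | h | h
    · exact ⟨Or.inl (tm_has_sb ha p h).1, (tm_has_sb ha p h).2⟩
    · exact ⟨Or.inr (Or.inl (tm_has_sb ha q h).1), (tm_has_sb ha q h).2⟩
    · exact ⟨Or.inr (Or.inr (Or.inl (tm_has_sb ha r h).1)), (tm_has_sb ha r h).2⟩
    · exact ⟨Or.inr (Or.inr (Or.inr (tm_has_sb ha s h).1)), (tm_has_sb ha s h).2⟩
  | .neg φ, h => fm_free_sb ha φ h
  | .imp φ ψ, h => by
    rcases h with h | h
    · exact ⟨Or.inl (fm_free_sb ha φ h).1, (fm_free_sb ha φ h).2⟩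
    · exact ⟨Or.inr (fm_free_sb ha ψ h).1, (fm_free_sb ha ψ h).2⟩
  | .all k φ, h => by
    by_cases hk : k = i
    · simp only [Fm.sb, if_pos hk] at h
      have h1 : k ≠ j ∧ φ.free j := h
      exact ⟨h1, fun h2 => h1.1 (hk.trans h2.symm)⟩
    · simp only [Fm.sb, if_neg hk] at h
      have h1 : k ≠ j ∧ (φ.sb i a).free j := h
      have h2 := fm_free_sb ha φ h1.2
      exact ⟨⟨h1.1, h2.1⟩, h2.2⟩

/-! ## The theory -/

theorem adv_S {B : Fm → Prop} (hB : Base O B)
    (hcode : ∀ σ : Fm, O (true :: false :: σ.enc) = true → σ.Closed ∧ σ.True O) :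
    ∃ S, InT O B S ∧ ∀ σ, O (true :: false :: σ.enc) = true → Ax O S σ := by
  obtain ⟨TB, hT1, hT2⟩ := hB.dec
  let S : Th := (orAsk [true, false] TB.1, exAsk [true, false] TB.2)
  have hspec := orAsk_spec (O := O) (τ := [true, false]) (p := TB.1) (k := TB.2) hT1
  have hAx : ∀ σ, Ax O S σ ↔ O (true :: false :: σ.enc) = true ∨ B σ := by
    intro σ
    have h1 := (hspec σ.enc).2
    have h2 := hT2 σ
    constructor
    · intro h
      rcases h1.mp h with h3 | h3
      · exact Or.inl h3
      · exact Or.inr (h2.mp h3)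
    · intro h
      rcases h with h3 | h3
      · exact h1.mpr (Or.inl h3)
      · exact h1.mpr (Or.inr (h2.mpr h3))
  refine ⟨S, ⟨fun x => (hspec x).1, fun σ hσ => (hAx σ).mpr (Or.inr hσ), fun σ hσ => ?_, ?_⟩,
    fun σ h => (hAx σ).2 (Or.inl h)⟩
  · rcases (hAx σ).mp hσ with h | h
    · exact (hcode σ h).1
    · exact hB.closed σ h
  · intro hp
    have h1 : falsum.True O := by
      refine sound (fun σ hσ => ?_) hp
      rcases (hAx σ).mp hσ with h | h
      · exact (hcode σ h).2
      · exact hB.isTrue σ h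
    exact h1 (fun _ => 0) rfl

/-! ## Levels -/

theorem ix_dep {d N : ℕ} (h : 2 ^ (2 * d) ≤ N) : d ≤ 2 ^ ix N := by
  rcases Nat.eq_zero_or_pos d with hd | hd
  · rw [hd]; exact Nat.zero_le _
  have h1 : 2 * d ≤ Nat.log 2 N := Nat.le_log_of_pow_le (by norm_num) h
  have h2 : Nat.log 2 N < 2 ^ (Nat.log 2 (Nat.log 2 N) + 1) :=
    Nat.lt_pow_succ_log_self (by norm_num) _
  rw [pow_succ] at h2
  unfold ix
  omega

theorem ix_lev {a N : ℕ} (h : 2 ^ 2 ^ a ≤ N) : a ≤ ix N := by
  have h1 : 2 ^ a ≤ Nat.log 2 N := Nat.le_log_of_pow_le (by norm_num) h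
  exact Nat.le_log_of_pow_le (by norm_num) h1

theorem ix_mono {M N : ℕ} (h : M ≤ N) : ix M ≤ ix N :=
  Nat.log_mono_right (Nat.log_mono_right h)

/-- the padding -/
def padE (c a n : ℕ) : ℕ := (4 * n + 2) ^ (2 * (c + 1)) + 2 ^ 2 ^ a

theorem padE_dep (e : Fam) (a n : ℕ) : 2 ^ (2 * e.dep n) ≤ padE e.2.1 a n := by
  unfold padE Fam.dep
  have h1 : 2 ^ (Nat.size n + 1) ≤ 4 * n + 2 := by
    rcases Nat.eq_zero_or_pos n with h | h
    · subst h; simp
    · have h2 : 0 < Nat.size n := Nat.size_pos.2 h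
      have h3 : 2 ^ (Nat.size n - 1) ≤ n := by
        rw [← Nat.lt_size]; omega
      have h4 : 2 ^ (Nat.size n + 1) = 4 * 2 ^ (Nat.size n - 1) := by
        have : Nat.size n + 1 = (Nat.size n - 1) + 2 := by omega
        rw [this, pow_add]; ring
      omega
  have h2 : 2 ^ (2 * ((e.2.1 + 1) * (Nat.size n + 1))) =
      (2 ^ (Nat.size n + 1)) ^ (2 * (e.2.1 + 1)) := by
    rw [← pow_mul]; congr 1; ring
  rw [h2]
  exact (Nat.pow_le_pow_left h1 _).trans (Nat.le_add_right _ _)

theorem padE_poly (c a : ℕ) : UPoly O (padE c a) :=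
  UPoly.add (UPoly.pow (UPoly.add (UPoly.mul (UPoly.const 4) UPoly.id) (UPoly.const 2)) _)
    (UPoly.const _)

/-! ## Easy proofs -/

/-- the tokens of `S^m 0` -/
def succT (m : List Unit) : List Tk := m.map (fun _ => tk 2 0) ++ [tk 1 0]

theorem succT_eq (m : ℕ) : succT (List.replicate m ()) = tmT (succs m) := by
  rw [pdq_succs]
  unfold succT
  rw [List.map_replicate]

/-- the proof -/
def prfE (i : List Unit) (p : List Tk) (m u : List Unit) : List Bool :=
  encT (padK m (famT i p u)) ++ (encT (eqK (succT m) (succT m)) ++ encT (famT i p u))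

theorem prfE_eq (e : Fam) (m : ℕ) (u : List Unit) :
    prfE (List.replicate e.1 ()) (fmT e.2.2) (List.replicate m ()) u =
      pEnc ([pad m (e.at u.length), .eq (succs m) (succs m)] ++ [e.at u.length]) := by
  unfold prfE
  have h : eqK (succT (List.replicate m ())) (succT (List.replicate m ())) =
      fmT (.eq (succs m) (succs m)) := by
    rw [succT_eq]; rfl
  rw [famT_eq, padK_fm, h, encT_fm, encT_fm, encT_fm]
  simp [pEnc]

theorem isProof_pad {A : Fm → Prop} {m : ℕ} {φ : Fm} (h : A (pad m φ)) :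
    IsProof A ([pad m φ, .eq (succs m) (succs m)] ++ [φ]) := by
  have h1 : IsProof A ([] ++ [pad m φ]) := prv_snoc (prv_nil A) (Or.inr (Or.inl h))
  have h2 : IsProof A (([] ++ [pad m φ]) ++ [Fm.eq (succs m) (succs m)]) :=
    prv_snoc h1 (Or.inl (Logical.refl _))
  refine prv_snoc h2 (Or.inr (Or.inr ⟨Fm.eq (succs m) (succs m), ?_, ?_⟩))
  · simp
  · simp [pad]

theorem PTime_prfE {i m u : γ → List Unit} {p : γ → List Tk} (hi : PTime O i) (hp : PTime O p)
    (hm : PTime O m) (hu : PTime O u) : PTime O (fun x => prfE (i x) (p x) (m x) (u x)) := by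
  have h1 := PTime_famT hi hp hu
  have h2 : PTime O (fun x => succT (m x)) :=
    (PTime.map (f := fun _ _ => tk 2 0) hm (PTime.const _)).append (PTime.const _)
  unfold prfE
  refine (PTime_encT (PTime_padK hm h1)).append ((PTime_encT ?_).append (PTime_encT h1))
  unfold eqK
  exact PTime.cons (PTime.const _) (h2.append h2)

theorem poly_len {f : List Bool → List Bool} (hf : PTime O f) :
    ∃ c : ℕ, ∀ n : ℕ, (f (List.replicate n true)).length ≤ n ^ c + c := by
  obtain ⟨P, hP⟩ := hf.size_le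
  obtain ⟨k, hk⟩ := exists_pow (P.comp (4 * Polynomial.X + 1))
  obtain ⟨C, hC⟩ := FNA_poly k 0
  refine ⟨C, fun n => ?_⟩
  have h1 : (f (List.replicate n true)).length ≤ sz (f (List.replicate n true)) := length_le_sz _
  have h2 := hP (List.replicate n true)
  have h3 : sz (List.replicate n true) ≤ 4 * n + 1 := by
    have := (num_list_sz (List.replicate n true)).2
    rwa [List.length_replicate] at this
  have h4 := poly_mono P h3
  have h5 := hk n
  simp only [Polynomial.eval_comp, Polynomial.eval_add, Polynomial.eval_mul,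
      Polynomial.eval_ofNat, Polynomial.eval_X, Polynomial.eval_one] at h5
  have h6 := hC n
  have h7 : (n + 2) ^ k ≤ (n + 4) ^ k := Nat.pow_le_pow_left (by omega) k
  omega

theorem easy_of {S : Th} (e : Fam) (a : ℕ)
    (h : ∀ n, Ax O S (pad (padE e.2.1 a n) (e.at n))) : EasyProofs O S e.at := by
  let f : List Bool → List Bool := fun x =>
    prfE (List.replicate e.1 ()) (fmT e.2.2) (List.replicate (padE e.2.1 a x.length) ()) (ulen x)
  have hf : ∀ O', PTime O' f := fun O' =>
    PTime_prfE (PTime.const _) (PTime.const _) ((padE_poly e.2.1 a).comp PTime.id)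
      (PTime.ulen PTime.id)
  have hfe : ∀ n, f (List.replicate n true) = pEnc ([pad (padE e.2.1 a n) (e.at n),
      .eq (succs (padE e.2.1 a n)) (succs (padE e.2.1 a n))] ++ [e.at n]) := by
    intro n
    have h1 : (ulen (List.replicate n true)).length = n := by
      rw [ulen_eq, List.length_replicate, List.length_replicate]
    show prfE _ _ _ _ = _
    rw [prfE_eq, h1, List.length_replicate]
  refine ⟨?_, f, inFP_of (hf _), fun n => ⟨_, isProof_pad (h n), hfe n⟩⟩
  obtain ⟨c, hc⟩ := poly_len (hf O)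
  refine ⟨c, fun n => ⟨_, isProof_pad (h n), ?_⟩⟩
  rw [← hfe n]
  exact hc n

theorem easy_code {en : ℕ → Fam} {g : ℕ → ℕ} {R : Lang} {S : Th}
    (hS : ∀ σ : Fm, (ON en g R) (true :: false :: σ.enc) = true → Ax (ON en g R) S σ) (j : ℕ)
    (hg : (en j).Good) (ht : ∀ n, ((en j).at n).True (ON en g R)) :
    EasyProofs (ON en g R) S (en j).at := by
  refine easy_of (en j) (g j) (fun n => hS _ ?_)
  show HN en g R (false :: _) = true
  rw [HN_iff]
  have hx : padE (en j).2.1 (g j) n ≤
      (false :: (pad (padE (en j).2.1 (g j) n) ((en j).at n)).enc).length := by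
    rw [List.length_cons, pad_len]; omega
  refine ⟨j, padE (en j).2.1 (g j) n, n, rfl, hg, ix_lev (le_trans ?_ hx),
    ix_dep ((padE_dep _ _ _).trans hx), fun k _ => ht k⟩
  unfold padE
  exact Nat.le_add_left _ _

theorem code_ok {en : ℕ → Fam} {g : ℕ → ℕ} {R : Lang} (σ : Fm)
    (h : (ON en g R) (true :: false :: σ.enc) = true) : σ.Closed ∧ σ.True (ON en g R) := by
  have h1 : HN en g R (false :: σ.enc) = true := h
  rw [HN_iff] at h1
  obtain ⟨j, m, n, h2, h3, h4, h5, h6⟩ := h1
  have h7 : σ = pad m ((en j).at n) := by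
    refine (enc_inj (a := []) (b := []) ?_).1
    rw [List.append_nil, List.append_nil]
    exact (List.cons.inj h2).2
  subst h7
  refine ⟨(pad_closed m _).2 ?_, (pad_true _ m _).2 (h6 n h5)⟩
  intro i hi
  obtain ⟨h8, h9⟩ := fm_free_sb (num_has i n) _ hi
  exact h9 (h3.1 i h8)

end Pool.Agent.ADV
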